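import Pool.Agent.Helper2.RG.St

/-!
# Project RG, module IDEAL (helper34): Hilbert 90 and ideals
-/

open scoped Pointwise NumberField
open NumberField Pool.RG UniqueFactorizationMonoid

namespace Pool.Agent.Helper34.RG

variable {K L : Type} [Field K] [NumberField K] [Field L] [NumberField L] [Algebra K L]

omit [NumberField K] [NumberField L] in
lemma coe_smul' (g : Gal(L/K)) (x : 𝓞 L) : ((g • x : 𝓞 L) : L) = g (x : L) := rfl

omit [NumberField K] [NumberField L] in
lemma norm_eq_one (u : (𝓞 L)ˣ) (hu : Nm K L u = 1) : Algebra.norm K (((u : 𝓞 L) : L)) = 1 := by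
  have h := congrArg (fun v : (𝓞 K)ˣ => (((v : 𝓞 K)) : K)) hu
  simpa [Nm] using h

lemma h90 [IsGalois K L] (g : Gal(L/K)) (hg : ∀ x : Gal(L/K), x ∈ Subgroup.zpowers g)
    (u : (𝓞 L)ˣ) (hu : Nm K L u = 1) : ∃ e : 𝓞 L, e ≠ 0 ∧ (u : 𝓞 L) * (g • e) = e := by
  have : IsCyclic Gal(L/K) := ⟨g, hg⟩
  obtain ⟨e, he, h⟩ := groupCohomology.exists_mul_galRestrict_of_norm_eq_one (A := 𝓞 K) (B := 𝓞 L)
    (K := K) (L := L) hg (η := (u : 𝓞 L)) (norm_eq_one u hu)
  refine ⟨e, he, ?_⟩
  rw [← h]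
  congr 1
  rw [h]
  apply RingOfIntegers.ext
  rw [coe_smul']
  exact (algebraMap_galRestrict_apply (𝓞 K) (K := K) (L := L) (B := 𝓞 L) g e).symm

omit [NumberField K] [NumberField L] in
/-- All conjugates are associated. -/
lemma assoc_all (g : Gal(L/K)) (hg : ∀ x : Gal(L/K), x ∈ Subgroup.zpowers g) (e : 𝓞 L)
    (h : Associated (g • e) e) (x : Gal(L/K)) : Associated (x • e) e := by
  let H : Subgroup Gal(L/K) :=
    { carrier := {x | Associated (x • e) e}
      one_mem' := by simp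
      mul_mem' := by
        intro a b ha hb
        change Associated ((a * b) • e) e
        change Associated (a • e) e at ha
        change Associated (b • e) e at hb
        rw [mul_smul]
        refine Associated.trans ?_ ha
        obtain ⟨w, hw⟩ := hb
        refine ⟨Units.map (MulSemiringAction.toRingHom Gal(L/K) (𝓞 L) a).toMonoidHom w, ?_⟩
        conv_rhs => rw [← hw]
        simp [smul_mul']
      inv_mem' := by
        intro a ha
        change Associated (a⁻¹ • e) e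
        change Associated (a • e) e at ha
        obtain ⟨w, hw⟩ := ha
        refine Associated.symm ⟨Units.map (MulSemiringAction.toRingHom Gal(L/K) (𝓞 L) a⁻¹).toMonoidHom w, ?_⟩
        conv_rhs => rw [← hw]
        simp [smul_mul'] }
  have : Subgroup.zpowers g ≤ H := by
    rw [Subgroup.zpowers_le]
    exact h
  exact this (hg x)

lemma unique_over [IsGalois K L] (P Q : Ideal (𝓞 L)) (hP : P.IsMaximal) (hQ : Q.IsMaximal)
    (h : P.under (𝓞 K) = Q.under (𝓞 K)) (hi : P.inertia Gal(L/K) = ⊤) : Q = P := by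
  have := hP.isPrime
  have := hQ.isPrime
  obtain ⟨σ, hσ⟩ := Algebra.IsInvariant.exists_smul_of_under_eq (𝓞 K) (𝓞 L) Gal(L/K) P Q h
  rw [hσ]
  ext x
  rw [Ideal.mem_pointwise_smul_iff_inv_smul_mem]
  have hm : σ⁻¹ ∈ P.inertia Gal(L/K) := by rw [hi]; trivial
  have h2 : σ⁻¹ • x - x ∈ P := hm x
  constructor
  · intro h3
    have := P.sub_mem h3 h2
    simpa using this
  · intro h3
    have := P.add_mem h3 h2
    simpa using this

lemma key [IsGalois K L] (hE : StPrin) (l : ℕ) (hl : l.Prime) (hf : Module.finrank K L = l)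
    (hc : Nat.Coprime (classNumber K) l) (g : Gal(L/K)) (hg : ∀ x : Gal(L/K), x ∈ Subgroup.zpowers g)
    (u u' : (𝓞 L)ˣ) (e e' : 𝓞 L) (he : e ≠ 0) (he' : e' ≠ 0)
    (hu : (u : 𝓞 L) * (g • e) = e) (hu' : (u' : 𝓞 L) * (g • e') = e')
    (hv : ∀ P : Ideal (𝓞 L), P.IsMaximal → P.inertia Gal(L/K) = ⊤ →
      (((normalizedFactors (Ideal.span {e})).count P : ℕ) : ZMod l) =
        (((normalizedFactors (Ideal.span {e'})).count P : ℕ) : ZMod l)) :
    u⁻¹ * u' ∈ (tau K L g).range := by
  classical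
  have ha : ∀ x : Gal(L/K), Associated (x • e) e :=
    assoc_all g hg e ⟨u, by rw [mul_comm]; exact hu⟩
  have ha' : ∀ x : Gal(L/K), Associated (x • e') e' :=
    assoc_all g hg e' ⟨u', by rw [mul_comm]; exact hu'⟩
  have hcard : Fintype.card Gal(L/K) = l := by
    rw [← hf, ← IsGalois.card_aut_eq_finrank K L, Nat.card_eq_fintype_card]
  set c : 𝓞 L := ∏ x ∈ (Finset.univ : Finset Gal(L/K)).erase 1, x • e' with hcdef
  have hNc : e' * c = ∏ x : Gal(L/K), x • e' := by
    rw [hcdef, ← Finset.mul_prod_erase Finset.univ (fun x : Gal(L/K) => x • e') (Finset.mem_univ 1),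
      one_smul]
  have hNg : g • (e' * c) = e' * c := by
    rw [hNc, Finset.smul_prod']
    simp_rw [← mul_smul]
    exact Fintype.prod_equiv (Equiv.mulLeft g) _ _ (fun x => rfl)
  have hcspan : Ideal.span {c} = Ideal.span {e'} ^ (l - 1) := by
    rw [Ideal.span_singleton_pow, Ideal.span_singleton_eq_span_singleton, hcdef]
    have : Associated (∏ x ∈ (Finset.univ : Finset Gal(L/K)).erase 1, x • e')
        (∏ x ∈ (Finset.univ : Finset Gal(L/K)).erase 1, e') :=
      Associated.prod _ _ _ (fun x _ => ha' x)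
    rw [Finset.prod_const, Finset.card_erase_of_mem (Finset.mem_univ _), Finset.card_univ, hcard] at this
    exact this
  have hc0 : c ≠ 0 := by
    rw [hcdef]
    refine Finset.prod_ne_zero_iff.mpr (fun x _ h0 => he' ?_)
    have := (ha' x)
    rw [h0] at this
    exact (associated_zero_iff_eq_zero _).mp this.symm
  set a : 𝓞 L := e * c with hadef
  have ha0 : a ≠ 0 := mul_ne_zero he hc0
  have hga : (u : 𝓞 L) * (g • a) = u' * a := by
    have h1 : e' * ((u : 𝓞 L) * (g • a)) = e' * (u' * a) := by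
      calc e' * ((u : 𝓞 L) * (g • a)) = ((u' : 𝓞 L) * (g • e')) * ((u : 𝓞 L) * (g • a)) := by rw [hu']
        _ = u' * ((u : 𝓞 L) * (g • e)) * ((g • e') * (g • c)) := by rw [hadef, smul_mul']; ring
        _ = u' * e * (g • (e' * c)) := by rw [hu, smul_mul']
        _ = u' * e * (e' * c) := by rw [hNg]
        _ = e' * (u' * a) := by rw [hadef]; ring
    exact mul_left_cancel₀ he' h1
  have haa : Associated (g • a) a := by
    refine ⟨u * u'⁻¹, ?_⟩
    rw [Units.val_mul, ← mul_assoc, mul_comm (g • a), hga, mul_comm (u' : 𝓞 L) a, mul_assoc,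
      Units.mul_inv, mul_one]
  obtain ⟨b, η, hb⟩ := hE K L l hl hf hc a ha0 (assoc_all g hg a haa) (by
    intro P hP hPi
    have h1 : Ideal.span {a} = Ideal.span {e} * Ideal.span {e'} ^ (l - 1) := by
      rw [← hcspan, Ideal.span_singleton_mul_span_singleton]
    have hne : Ideal.span {e} ≠ 0 := by
      simpa using he
    have hne' : Ideal.span {e'} ≠ 0 := by
      simpa using he'
    rw [h1, normalizedFactors_mul hne (pow_ne_zero _ hne'), normalizedFactors_pow, Multiset.count_add,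
      Multiset.count_nsmul, ← ZMod.natCast_eq_zero_iff]
    push_cast
    rw [hv P hP hPi, Nat.cast_sub hl.one_le]
    simp)
  have hb0 : algebraMap (𝓞 K) (𝓞 L) b ≠ 0 := by
    intro h0
    rw [h0, zero_mul] at hb
    exact ha0 hb
  have hgb : g • (algebraMap (𝓞 K) (𝓞 L) b) = algebraMap (𝓞 K) (𝓞 L) b := smul_algebraMap g b
  rw [hb, smul_mul', hgb] at hga
  have h2 : (u : 𝓞 L) * (g • (η : 𝓞 L)) = u' * η := by
    apply mul_left_cancel₀ hb0
    calc algebraMap (𝓞 K) (𝓞 L) b * ((u : 𝓞 L) * (g • (η : 𝓞 L)))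
        = (u : 𝓞 L) * (algebraMap (𝓞 K) (𝓞 L) b * (g • (η : 𝓞 L))) := by ring
      _ = _ := by rw [hga]; ring
  refine ⟨η, ?_⟩
  have h3 : u * actU K L g η = u' * η := by
    apply Units.ext
    simpa [actU] using h2
  have h4 : tau K L g η = actU K L g η / η := rfl
  rw [h4, div_eq_iff_eq_mul, eq_comm, mul_assoc, inv_mul_eq_iff_eq_mul, eq_comm]
  exact h3

theorem tIdeal (hE : StPrin) : StIdeal := by
  classical
  intro K L _ _ _ _ _ _ l g hl hf hg hc T hT
  have hl0 : NeZero l := ⟨hl.ne_zero⟩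
  -- the chosen prime above `q`
  have hex : ∀ q : T, ∃ P : Ideal (𝓞 L), P.IsMaximal ∧ P.under (𝓞 K) = q.1 ∧ P.inertia Gal(L/K) = ⊤ :=
    fun q => (hT q.1).mp q.2
  choose PP hPP using hex
  have hh : ∀ u : (Nm K L).ker, ∃ e : 𝓞 L, e ≠ 0 ∧ ((u.1 : (𝓞 L)ˣ) : 𝓞 L) * (g • e) = e :=
    fun u => h90 g hg u.1 u.2
  choose ee hee using hh
  let φ : (Nm K L).ker → (T → ZMod l) := fun u q =>
    (((normalizedFactors (Ideal.span {ee u})).count (PP q) : ℕ) : ZMod l)
  have hφ : ∀ u u' : (Nm K L).ker, φ u = φ u' → u⁻¹ * u' ∈ (tau K L g).range.subgroupOf (Nm K L).ker := by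
    intro u u' h
    rw [Subgroup.mem_subgroupOf]
    refine key hE l hl hf hc g hg u.1 u'.1 (ee u) (ee u') (hee u).1 (hee u').1 (hee u).2 (hee u').2 ?_
    intro P hP hPi
    have hq : P.under (𝓞 K) ∈ T := (hT _).mpr ⟨P, hP, rfl, hPi⟩
    have h1 : PP ⟨_, hq⟩ = P := by
      obtain ⟨h1, h2, h3⟩ := hPP ⟨_, hq⟩
      exact (unique_over P _ hP h1 h2.symm hPi)
    have h2 := congrFun h ⟨_, hq⟩
    simp only [φ] at h2
    rw [h1] at h2
    exact h2
  rw [Subgroup.relIndex, Subgroup.index]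
  have hcard : Nat.card (T → ZMod l) = l ^ T.card := by
    rw [Nat.card_fun]; simp
  rw [← hcard]
  refine Nat.card_le_card_of_injective (fun x => φ (Quotient.out x)) ?_
  intro x y hxy
  have := hφ _ _ hxy
  rw [← QuotientGroup.eq] at this
  have hx : (QuotientGroup.mk (Quotient.out x) : (Nm K L).ker ⧸ (tau K L g).range.subgroupOf (Nm K L).ker) = x :=
    QuotientGroup.out_eq' x
  have hy : (QuotientGroup.mk (Quotient.out y) : (Nm K L).ker ⧸ (tau K L g).range.subgroupOf (Nm K L).ker) = y :=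
    QuotientGroup.out_eq' y
  rw [← hx, ← hy]
  exact this

end Pool.Agent.Helper34.RG
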